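import Mathlib

/-!
# The number of the values of a random map is concentrated
-/

set_option autoImplicit false

namespace Pool.Agent.X319.NS

open Finset

variable (N m : ℕ)

/-- number of the missed values -/
def mis {N m : ℕ} (h : Fin N → Fin m) : ℕ := (univ.filter (fun i : Fin m => ∀ x, h x ≠ i)).card

lemma card_avoid1 (i : Fin m) :
    (univ.filter (fun h : Fin N → Fin m => ∀ x, h x ≠ i)).card = (m - 1) ^ N := by
  have : univ.filter (fun h : Fin N → Fin m => ∀ x, h x ≠ i) =
      Fintype.piFinset (fun _ : Fin N => (univ : Finset (Fin m)).erase i) := by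
    ext h; simp
  rw [this, Fintype.card_piFinset]
  simp

lemma card_avoid2 (i j : Fin m) (hij : i ≠ j) :
    (univ.filter (fun h : Fin N → Fin m => (∀ x, h x ≠ i) ∧ ∀ x, h x ≠ j)).card = (m - 2) ^ N := by
  have : univ.filter (fun h : Fin N → Fin m => (∀ x, h x ≠ i) ∧ ∀ x, h x ≠ j) =
      Fintype.piFinset (fun _ : Fin N => ((univ : Finset (Fin m)).erase i).erase j) := by
    ext h
    simp only [Finset.mem_filter, Finset.mem_univ, true_and, Fintype.mem_piFinset, Finset.mem_erase,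
      and_true]
    constructor
    · rintro ⟨h1, h2⟩ x; exact ⟨h2 x, h1 x⟩
    · intro h1; exact ⟨fun x => (h1 x).2, fun x => (h1 x).1⟩
  rw [this, Fintype.card_piFinset]
  rw [Finset.prod_const, Finset.card_erase_of_mem (by simp [hij.symm]), Finset.card_erase_of_mem (by simp)]
  simp [Nat.sub_sub]

lemma sum1 : ∑ h : Fin N → Fin m, (mis h : ℝ) = m * ((m - 1 : ℕ) : ℝ) ^ N := by
  have h1 : ∑ h : Fin N → Fin m, mis h = m * (m - 1) ^ N := by
    simp only [mis, Finset.card_filter]
    rw [Finset.sum_comm]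
    have : ∀ i : Fin m, ∑ h : Fin N → Fin m, (if ∀ x, h x ≠ i then 1 else 0) = (m - 1) ^ N := by
      intro i
      rw [← Finset.card_filter]; exact card_avoid1 N m i
    rw [Finset.sum_congr rfl fun i _ => this i]
    simp
  exact_mod_cast h1

lemma sum2 : ∑ h : Fin N → Fin m, (mis h : ℝ) ^ 2 ≤
    m * ((m - 1 : ℕ) : ℝ) ^ N + m * (m : ℝ) * ((m - 2 : ℕ) : ℝ) ^ N - m * ((m - 2 : ℕ) : ℝ) ^ N := by
  have h1 : ∑ h : Fin N → Fin m, mis h ^ 2 + m * (m - 2) ^ N =
      m * (m - 1) ^ N + m * m * (m - 2) ^ N := by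
    have e : ∀ h : Fin N → Fin m, mis h ^ 2 = ∑ i : Fin m, ∑ j : Fin m,
        (if (∀ x, h x ≠ i) ∧ ∀ x, h x ≠ j then 1 else 0) := by
      intro h
      rw [pow_two]
      simp only [mis, Finset.card_filter]
      rw [Finset.sum_mul_sum]
      refine Finset.sum_congr rfl fun i _ => Finset.sum_congr rfl fun j _ => ?_
      by_cases h1 : ∀ x, h x ≠ i <;> by_cases h2 : ∀ x, h x ≠ j <;> simp [h1, h2]
    rw [Finset.sum_congr rfl fun h _ => e h, Finset.sum_comm]
    have e2 : ∀ i : Fin m, ∑ h : Fin N → Fin m, ∑ j : Fin m,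
        (if (∀ x, h x ≠ i) ∧ ∀ x, h x ≠ j then 1 else 0) + (m - 2) ^ N =
        (m - 1) ^ N + m * (m - 2) ^ N := by
      intro i
      rw [Finset.sum_comm]
      have e3 : ∀ j : Fin m, ∑ h : Fin N → Fin m,
          (if (∀ x, h x ≠ i) ∧ ∀ x, h x ≠ j then 1 else 0) =
          if j = i then (m - 1) ^ N else (m - 2) ^ N := by
        intro j
        rw [← Finset.card_filter]
        split_ifs with hj
        · subst hj
          rw [← card_avoid1 N m j]
          congr 1
          ext h; simp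
        · exact card_avoid2 N m i j (Ne.symm hj)
      rw [Finset.sum_congr rfl fun j _ => e3 j, Finset.sum_ite, Finset.sum_const, Finset.sum_const]
      have c1 : (univ.filter (fun j : Fin m => j = i)).card = 1 := by
        rw [Finset.filter_eq']; simp
      have c2 : (univ.filter (fun j : Fin m => ¬ j = i)).card + 1 = m := by
        have := Finset.card_filter_add_card_filter_not (s := (univ : Finset (Fin m))) (fun j => j = i)
        rw [c1, Finset.card_univ, Fintype.card_fin] at this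
        omega
      rw [c1, smul_eq_mul, smul_eq_mul, one_mul, add_assoc]
      congr 1
      calc _ = ((univ.filter (fun j : Fin m => ¬ j = i)).card + 1) * (m - 2) ^ N := by ring
        _ = _ := by rw [c2]
    have e4 : ∑ i : Fin m, (∑ h : Fin N → Fin m, ∑ j : Fin m,
        (if (∀ x, h x ≠ i) ∧ ∀ x, h x ≠ j then 1 else 0) + (m - 2) ^ N) =
        ∑ i : Fin m, ((m - 1) ^ N + m * (m - 2) ^ N) := Finset.sum_congr rfl fun i _ => e2 i
    rw [Finset.sum_add_distrib, Finset.sum_const, Finset.sum_const, Finset.card_univ,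
      Fintype.card_fin, smul_eq_mul, smul_eq_mul] at e4
    rw [e4]; ring
  have h2 : (∑ h : Fin N → Fin m, (mis h : ℝ) ^ 2) + m * ((m - 2 : ℕ) : ℝ) ^ N =
      m * ((m - 1 : ℕ) : ℝ) ^ N + m * (m : ℝ) * ((m - 2 : ℕ) : ℝ) ^ N := by exact_mod_cast h1
  linarith

/-- variance -/
lemma var (hm : 2 ≤ m) : ∃ μ : ℝ, ∑ h : Fin N → Fin m, ((mis h : ℝ) - μ) ^ 2 ≤ m * (m : ℝ) ^ N := by
  have hmR : (2 : ℝ) ≤ m := by exact_mod_cast hm
  set T : ℝ := (m : ℝ) ^ N with hT
  have hT0 : 0 < T := by positivity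
  have c1 : ((m - 1 : ℕ) : ℝ) = m - 1 := by rw [Nat.cast_sub (by omega)]; simp
  have c2 : ((m - 2 : ℕ) : ℝ) = m - 2 := by rw [Nat.cast_sub hm]; simp
  have s1 := sum1 N m
  have s2 := sum2 N m
  rw [c1] at s1 s2
  rw [c2] at s2
  set P : ℝ := ((m : ℝ) - 1) ^ N with hP
  set Q : ℝ := ((m : ℝ) - 2) ^ N with hQ
  have hP0 : 0 ≤ P := pow_nonneg (by linarith) _
  have hQ0 : 0 ≤ Q := pow_nonneg (by linarith) _
  have hPT : P ≤ T := pow_le_pow_left₀ (by linarith) (by linarith) _
  have hQT : Q * T ≤ P ^ 2 := by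
    rw [hQ, hT, hP, ← mul_pow, ← pow_mul, mul_comm N 2, pow_mul]
    exact pow_le_pow_left₀ (by nlinarith) (by nlinarith) _
  refine ⟨m * P / T, ?_⟩
  have hcard : (Fintype.card (Fin N → Fin m) : ℝ) = T := by
    rw [Fintype.card_fun, Fintype.card_fin, Fintype.card_fin]; push_cast; rfl
  have e : ∀ c : ℝ, ∑ h : Fin N → Fin m, ((mis h : ℝ) - c) ^ 2 =
      ∑ h : Fin N → Fin m, (mis h : ℝ) ^ 2 - 2 * c * ∑ h : Fin N → Fin m, (mis h : ℝ) +
      T * c ^ 2 := by
    intro c
    have hc : T * c ^ 2 = ∑ h : Fin N → Fin m, c ^ 2 := by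
      rw [Finset.sum_const, nsmul_eq_mul, Finset.card_univ, hcard]
    rw [hc, Finset.mul_sum, ← Finset.sum_sub_distrib, ← Finset.sum_add_distrib]
    refine Finset.sum_congr rfl fun h _ => ?_
    ring
  rw [e, s1]
  have e2 : - 2 * (m * P / T) * (m * P) + T * (m * P / T) ^ 2 = - (m * m * (P ^ 2 / T)) := by
    field_simp; ring
  have e3 : m * (m : ℝ) * Q ≤ m * m * (P ^ 2 / T) := by
    refine mul_le_mul_of_nonneg_left ?_ (by positivity)
    rw [le_div_iff₀ hT0]; exact hQT
  have e4 : (m : ℝ) * P ≤ m * T := mul_le_mul_of_nonneg_left hPT (by positivity)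
  have e5 : 0 ≤ (m : ℝ) * Q := by positivity
  linarith

/-- Chebyshev: one value of `mis` is taken often -/
theorem exists_many (hm : 2 ≤ m) : ∃ k : ℕ,
    3 * (m : ℝ) ^ N ≤ 20 * √(m : ℝ) * ((univ.filter (fun h : Fin N → Fin m => mis h = k)).card : ℝ) := by
  classical
  obtain ⟨μ, hμ⟩ := var N m hm
  have hmR : (2 : ℝ) ≤ m := by exact_mod_cast hm
  have hsq : √(m : ℝ) ^ 2 = m := Real.sq_sqrt (by linarith)
  have hs1 : 1 ≤ √(m : ℝ) := by rw [Real.one_le_sqrt]; linarith
  set σ := √(m : ℝ) with hσ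
  set T : ℝ := (m : ℝ) ^ N with hT
  -- bad maps
  set Bd := univ.filter (fun h : Fin N → Fin m => ¬ |(mis h : ℝ) - μ| < 2 * σ) with hBd
  set Gd := univ.filter (fun h : Fin N → Fin m => |(mis h : ℝ) - μ| < 2 * σ) with hGd
  have hsplit : (Gd.card : ℝ) + Bd.card = T := by
    have h1 := Finset.card_filter_add_card_filter_not (s := (univ : Finset (Fin N → Fin m)))
      (fun h => |(mis h : ℝ) - μ| < 2 * σ)
    rw [Finset.card_univ, Fintype.card_fun, Fintype.card_fin, Fintype.card_fin] at h1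
    rw [hT]
    exact_mod_cast h1
  have hbad : 4 * m * (Bd.card : ℝ) ≤ m * T := by
    calc 4 * m * (Bd.card : ℝ) = ∑ h ∈ Bd, (4 * (m : ℝ)) := by
          rw [Finset.sum_const, nsmul_eq_mul]; ring
      _ ≤ ∑ h ∈ Bd, ((mis h : ℝ) - μ) ^ 2 := by
        refine Finset.sum_le_sum fun h hh => ?_
        have h1 := not_lt.1 (Finset.mem_filter.1 hh).2
        have h2 : (2 * σ) ^ 2 ≤ |(mis h : ℝ) - μ| ^ 2 := pow_le_pow_left₀ (by positivity) h1 2
        rw [sq_abs] at h2
        nlinarith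
      _ ≤ ∑ h : Fin N → Fin m, ((mis h : ℝ) - μ) ^ 2 :=
        Finset.sum_le_sum_of_subset_of_nonneg (Finset.subset_univ _) fun _ _ _ => sq_nonneg _
      _ ≤ _ := hμ
  have hbad' : (Bd.card : ℝ) ≤ T / 4 := by
    have hm0 : (0 : ℝ) < m := by linarith
    have h1 : (m : ℝ) * (4 * Bd.card) ≤ m * T := by linarith
    have h2 := le_of_mul_le_mul_left h1 hm0
    linarith
  have hgood : 3 * T / 4 ≤ Gd.card := by linarith
  by_contra hcon
  push Not at hcon
  -- the window
  set w : Finset ℕ := (Finset.range (m + 1)).filter (fun k => |(k : ℝ) - μ| < 2 * σ) with hw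
  have hwcard : (w.card : ℝ) ≤ 5 * σ := by
    rcases w.eq_empty_or_nonempty with h0 | h0
    · rw [h0]; simp; positivity
    · set a := w.min' h0
      set b := w.max' h0
      have ha := (Finset.mem_filter.1 (Finset.min'_mem w h0)).2
      have hb := (Finset.mem_filter.1 (Finset.max'_mem w h0)).2
      have hsub : w ⊆ Finset.Icc a b := fun x hx =>
        Finset.mem_Icc.2 ⟨Finset.min'_le _ _ hx, Finset.le_max' _ _ hx⟩
      have h1 := Finset.card_le_card hsub
      rw [Nat.card_Icc] at h1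
      have hab : a ≤ b := Finset.min'_le _ _ (Finset.max'_mem w h0)
      have h2 : w.card + a ≤ b + 1 := by omega
      have h2' : (w.card : ℝ) + a ≤ b + 1 := by exact_mod_cast h2
      rw [abs_lt] at ha hb
      linarith [ha.1, ha.2, hb.1, hb.2]
  have hcov : Gd ⊆ w.biUnion (fun k => univ.filter (fun h : Fin N → Fin m => mis h = k)) := by
    intro h hh
    have h1 := (Finset.mem_filter.1 hh).2
    rw [Finset.mem_biUnion]
    refine ⟨mis h, Finset.mem_filter.2 ⟨?_, h1⟩, Finset.mem_filter.2 ⟨Finset.mem_univ _, rfl⟩⟩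
    rw [Finset.mem_range]
    have : mis h ≤ m := by
      have := Finset.card_filter_le (univ : Finset (Fin m)) (fun i => ∀ x, h x ≠ i)
      rwa [Finset.card_univ, Fintype.card_fin] at this
    omega
  have hGle : (Gd.card : ℝ) ≤ ∑ k ∈ w, ((univ.filter (fun h : Fin N → Fin m => mis h = k)).card : ℝ) := by
    have := (Finset.card_le_card hcov).trans Finset.card_biUnion_le
    exact_mod_cast this
  have hlt : ∑ k ∈ w, ((univ.filter (fun h : Fin N → Fin m => mis h = k)).card : ℝ) ≤
      w.card * (3 * T / (20 * σ)) := by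
    rw [← nsmul_eq_mul, ← Finset.sum_const]
    refine Finset.sum_le_sum fun k _ => ?_
    have h1 := hcon k
    rw [le_div_iff₀ (by positivity)]
    linarith
  have hfin : (w.card : ℝ) * (3 * T / (20 * σ)) ≤ 5 * σ * (3 * T / (20 * σ)) :=
    mul_le_mul_of_nonneg_right hwcard (by positivity)
  have e : 5 * σ * (3 * T / (20 * σ)) = 3 * T / 4 := by field_simp; ring
  -- strictness
  have hne : w.Nonempty := by
    by_contra h0
    rw [Finset.not_nonempty_iff_eq_empty] at h0
    rw [h0] at hGle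
    simp at hGle
    have hT0 : 0 < T := by positivity
    have : Gd.card = 0 := by rw [hGle]; simp
    rw [this] at hgood
    norm_num at hgood
    linarith
  obtain ⟨k0, hk0⟩ := hne
  have hlt' : ∑ k ∈ w, ((univ.filter (fun h : Fin N → Fin m => mis h = k)).card : ℝ) <
      w.card * (3 * T / (20 * σ)) := by
    rw [← nsmul_eq_mul, ← Finset.sum_const]
    refine Finset.sum_lt_sum_of_nonempty ⟨k0, hk0⟩ fun k _ => ?_
    have h1 := hcon k
    rw [lt_div_iff₀ (by positivity)]
    linarith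
  linarith

end Pool.Agent.X319.NS
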