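import Pool.Agent.X319.NS.Cheb

/-!
# MP_2b9fb5_al: `log_2 s(T_n) ≥ (3/20) (n - 1) (n - 2) ^ (n - 1) / √(n - 2)`

For a rank `r` let `X_r` be the set of the maps `f` of rank `r` with `0` not in the image and `f x ≠ f 0` for
`x ≠ 0`. The product of two elements of `X_r` has rank less than `r`. So each subset of `X_r`, together with all
maps of rank less than `r`, is a subsemigroup. The union of the `X_r` has
`(n - 1) (n - 2) ^ (n - 1)` elements, and by the inequality of Chebyshev three quarters of them have a rank in a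
window of length `4 √(n - 2)`.
-/

set_option autoImplicit false

namespace Pool.Agent.X319.NS.Rank

open Finset

/-- the number of the nonempty subsemigroups of the full transformation semigroup `T_n`
(all maps `Fin n → Fin n`, with composition) -/
noncomputable def s (n : ℕ) : ℕ :=
  Nat.card {S : Subsemigroup (Function.End (Fin n)) // (S : Set (Function.End (Fin n))).Nonempty}

/-- the rank of a map -/
def rk {n : ℕ} (f : Fin n → Fin n) : ℕ := (univ.image f).card

lemma rk_comp_le_left {n : ℕ} (f g : Fin n → Fin n) : rk (f ∘ g) ≤ rk f := by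
  refine Finset.card_le_card ?_
  intro y hy
  obtain ⟨x, _, rfl⟩ := Finset.mem_image.1 hy
  exact Finset.mem_image_of_mem _ (Finset.mem_univ _)

lemma rk_comp_le_right {n : ℕ} (f g : Fin n → Fin n) : rk (f ∘ g) ≤ rk g := by
  rw [rk, rk, ← Finset.image_image]
  exact Finset.card_image_le

/-- the maps of rank `r` with `0` not in the image and `{0}` a class of the kernel -/
def X (m r : ℕ) : Finset (Fin (m + 2) → Fin (m + 2)) :=
  univ.filter (fun f => (∀ x, f x ≠ 0) ∧ (∀ x, x ≠ 0 → f x ≠ f 0) ∧ rk f = r)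

lemma rk_lt {m r : ℕ} {f g : Fin (m + 2) → Fin (m + 2)} (hf : f ∈ X m r) (hg : g ∈ X m r) :
    rk (f ∘ g) < r := by
  obtain ⟨f1, f2, f3⟩ := (Finset.mem_filter.1 hf).2
  obtain ⟨g1, g2, g3⟩ := (Finset.mem_filter.1 hg).2
  have hsub : univ.image (f ∘ g) ⊆ (univ.image f).erase (f 0) := by
    intro y hy
    obtain ⟨x, _, rfl⟩ := Finset.mem_image.1 hy
    exact Finset.mem_erase.2 ⟨f2 _ (g1 x), Finset.mem_image_of_mem _ (Finset.mem_univ _)⟩
  have h1 := Finset.card_le_card hsub
  rw [Finset.card_erase_of_mem (Finset.mem_image_of_mem _ (Finset.mem_univ _))] at h1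
  have h2 : 0 < (univ.image f).card :=
    Finset.card_pos.2 ⟨f 0, Finset.mem_image_of_mem _ (Finset.mem_univ _)⟩
  have h3 : (univ.image f).card = r := f3
  show (univ.image (f ∘ g)).card < r
  omega

/-- the subsemigroup of a subset of `X m r` -/
def sg (m r : ℕ) (A : Finset (Fin (m + 2) → Fin (m + 2))) (hA : A ⊆ X m r) :
    Subsemigroup (Function.End (Fin (m + 2))) where
  carrier := {f | (f : Fin (m + 2) → Fin (m + 2)) ∈ A ∨ rk (f : Fin (m + 2) → Fin (m + 2)) < r}
  mul_mem' := by
    intro f g hf hg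
    right
    show rk ((f : Fin (m + 2) → Fin (m + 2)) ∘ (g : Fin (m + 2) → Fin (m + 2))) < r
    rcases hf with hf | hf
    · rcases hg with hg | hg
      · exact rk_lt (hA hf) (hA hg)
      · exact lt_of_le_of_lt (rk_comp_le_right _ _) hg
    · exact lt_of_le_of_lt (rk_comp_le_left _ _) hf

lemma two_pow_le (m r : ℕ) (hr : 2 ≤ r) : 2 ^ (X m r).card ≤ s (m + 2) := by
  classical
  rw [← Finset.card_powerset, s]
  have hfin : Finite {S : Subsemigroup (Function.End (Fin (m + 2))) //
      (S : Set (Function.End (Fin (m + 2)))).Nonempty} := by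
    have : Finite (Function.End (Fin (m + 2))) := inferInstanceAs (Finite (Fin (m + 2) → Fin (m + 2)))
    have : Finite (Subsemigroup (Function.End (Fin (m + 2)))) :=
      Finite.of_injective (fun S => (S : Set (Function.End (Fin (m + 2))))) SetLike.coe_injective
    infer_instance
  have hconst : rk (fun _ : Fin (m + 2) => (0 : Fin (m + 2))) < r := by
    have : rk (fun _ : Fin (m + 2) => (0 : Fin (m + 2))) ≤ 1 := by
      refine le_trans (Finset.card_le_card (t := {0}) ?_) (by simp)
      intro y hy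
      obtain ⟨x, _, rfl⟩ := Finset.mem_image.1 hy
      simp
    omega
  let φ : {A // A ∈ (X m r).powerset} → {S : Subsemigroup (Function.End (Fin (m + 2))) //
      (S : Set (Function.End (Fin (m + 2)))).Nonempty} := fun A =>
    ⟨sg m r A.1 (Finset.mem_powerset.1 A.2), ⟨(fun _ : Fin (m + 2) => (0 : Fin (m + 2))), Or.inr hconst⟩⟩
  have hφ : Function.Injective φ := by
    rintro ⟨A, hA⟩ ⟨B, hB⟩ h
    have h1 : sg m r A (Finset.mem_powerset.1 hA) = sg m r B (Finset.mem_powerset.1 hB) :=
      Subtype.ext_iff.1 h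
    have key : ∀ (A B : Finset (Fin (m + 2) → Fin (m + 2))) (hA : A ⊆ X m r) (hB : B ⊆ X m r),
        sg m r A hA = sg m r B hB → A ⊆ B := by
      intro A B hA hB h f hf
      have h2 : (f : Function.End (Fin (m + 2))) ∈ sg m r A hA := Or.inl hf
      rw [h] at h2
      rcases h2 with h2 | h2
      · exact h2
      · have := (Finset.mem_filter.1 (hA hf)).2.2.2
        have h3 : rk f < r := h2
        omega
    refine Subtype.ext ?_
    exact Finset.Subset.antisymm (key A B _ _ h1) (key B A _ _ h1.symm)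
  have := Nat.card_le_card_of_injective φ hφ
  rwa [Nat.card_eq_fintype_card, Fintype.card_coe] at this

/-- the map with the value `a + 1` at `0` and values given by `h` at the other points -/
def psi {m : ℕ} (p : Fin (m + 1) × (Fin (m + 1) → Fin m)) : Fin (m + 2) → Fin (m + 2) :=
  Fin.cons p.1.succ (fun i => (p.1.succAbove (p.2 i)).succ)

lemma psi_inj {m : ℕ} : Function.Injective (psi (m := m)) := by
  rintro ⟨a, h⟩ ⟨b, k⟩ he
  have h0 : a = b := by
    have := congrFun he 0
    simpa [psi] using this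
  subst h0
  have h1 : h = k := by
    funext i
    have := congrFun he i.succ
    simpa [psi] using this
  rw [h1]

lemma rk_psi {m : ℕ} (p : Fin (m + 1) × (Fin (m + 1) → Fin m)) :
    rk (psi p) = (univ.image p.2).card + 1 := by
  classical
  have e : univ.image (psi p) =
      insert p.1.succ ((univ.image p.2).image (fun i => (p.1.succAbove i).succ)) := by
    ext y
    simp only [Finset.mem_image, Finset.mem_univ, true_and, Finset.mem_insert,
      exists_exists_eq_and]
    constructor
    · rintro ⟨x, rfl⟩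
      refine Fin.cases ?_ (fun i => ?_) x
      · left; simp [psi]
      · right; exact ⟨i, by simp [psi]⟩
    · rintro (rfl | ⟨i, rfl⟩)
      · exact ⟨0, by simp [psi]⟩
      · exact ⟨i.succ, by simp [psi]⟩
  have hinj : Function.Injective (fun i : Fin m => (p.1.succAbove i).succ) := by
    intro i j h
    simpa using h
  rw [rk, e, Finset.card_insert_of_notMem, Finset.card_image_of_injective _ hinj]
  intro h
  obtain ⟨i, _, hi⟩ := Finset.mem_image.1 h
  exact Fin.succAbove_ne _ _ (Fin.succ_injective _ hi)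

lemma card_image_add {N m : ℕ} (h : Fin N → Fin m) :
    (univ.image h).card + Pool.Agent.X319.NS.mis h = m := by
  classical
  have h1 := Finset.card_filter_add_card_filter_not (s := (univ : Finset (Fin m)))
    (fun i => ∀ x, h x ≠ i)
  rw [Finset.card_univ, Fintype.card_fin] at h1
  have h2 : univ.image h = univ.filter (fun i : Fin m => ¬ ∀ x, h x ≠ i) := by
    ext i
    simp
  rw [h2, Pool.Agent.X319.NS.mis]
  omega

lemma exists_rank (m : ℕ) (hm : 2 ≤ m) : ∃ r, 2 ≤ r ∧
    3 * ((m : ℝ) + 1) * (m : ℝ) ^ (m + 1) / (20 * √(m : ℝ)) ≤ ((X m r).card : ℝ) := by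
  classical
  obtain ⟨k, hk⟩ := Pool.Agent.X319.NS.exists_many (m + 1) m hm
  have hmR : (2 : ℝ) ≤ m := by exact_mod_cast hm
  have hσ : 0 < √(m : ℝ) := Real.sqrt_pos.2 (by linarith)
  set F := univ.filter (fun h : Fin (m + 1) → Fin m => Pool.Agent.X319.NS.mis h = k) with hF
  have hFpos : F.Nonempty := by
    rw [← Finset.card_pos]
    by_contra h0
    have h1 : F.card = 0 := by omega
    rw [h1] at hk
    have : (0 : ℝ) < 3 * (m : ℝ) ^ (m + 1) := by positivity
    simp at hk
    linarith
  obtain ⟨h0, hh0⟩ := hFpos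
  have hk0 : Pool.Agent.X319.NS.mis h0 = k := (Finset.mem_filter.1 hh0).2
  have him : 1 ≤ (univ.image h0).card :=
    Finset.card_pos.2 ⟨h0 0, Finset.mem_image_of_mem _ (Finset.mem_univ _)⟩
  have hadd := card_image_add h0
  refine ⟨m - k + 1, by omega, ?_⟩
  have hmaps : ∀ p ∈ (univ : Finset (Fin (m + 1))) ×ˢ F, psi p ∈ X m (m - k + 1) := by
    rintro ⟨a, h⟩ hp
    have hh := (Finset.mem_filter.1 (Finset.mem_product.1 hp).2).2
    have h2 := card_image_add h
    refine Finset.mem_filter.2 ⟨Finset.mem_univ _, ?_, ?_, ?_⟩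
    · intro x
      refine Fin.cases ?_ (fun i => ?_) x
      · simp [psi]
      · simp [psi]
    · intro x hx
      obtain ⟨i, rfl⟩ := Fin.exists_succ_eq.2 hx
      simp only [psi, Fin.cons_succ, Fin.cons_zero, ne_eq, Fin.succ_inj]
      exact Fin.succAbove_ne _ _
    · rw [rk_psi]
      simp only at hh ⊢
      omega
  have hcard := Finset.card_le_card_of_injOn psi hmaps psi_inj.injOn
  rw [Finset.card_product, Finset.card_univ, Fintype.card_fin] at hcard
  have hcardR : ((m : ℝ) + 1) * F.card ≤ (X m (m - k + 1)).card := by exact_mod_cast hcard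
  refine le_trans ?_ hcardR
  rw [div_le_iff₀ (by positivity)]
  have : ((m : ℝ) + 1) * (3 * (m : ℝ) ^ (m + 1)) ≤ ((m : ℝ) + 1) * (20 * √(m : ℝ) * F.card) :=
    mul_le_mul_of_nonneg_left hk (by positivity)
  linarith

theorem result : ∀ n : ℕ, 4 ≤ n →
    3 * ((n : ℝ) - 1) * ((n : ℝ) - 2) ^ (n - 1) / (20 * √((n : ℝ) - 2)) ≤ Real.logb 2 (s n) := by
  intro n hn
  obtain ⟨m, rfl⟩ : ∃ m, n = m + 2 := ⟨n - 2, by omega⟩
  obtain ⟨r, hr, h⟩ := exists_rank m (by omega)
  have h2 := two_pow_le m r hr
  have h3 : (2 : ℝ) ^ ((X m r).card : ℝ) ≤ s (m + 2) := by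
    rw [Real.rpow_natCast]; exact_mod_cast h2
  have h4 : ((X m r).card : ℝ) ≤ Real.logb 2 (s (m + 2)) := by
    rw [Real.le_logb_iff_rpow_le (by norm_num) (lt_of_lt_of_le (by positivity) h3)]
    exact h3
  have e1 : ((m + 2 : ℕ) : ℝ) - 1 = m + 1 := by push_cast; ring
  have e2 : ((m + 2 : ℕ) : ℝ) - 2 = m := by push_cast; ring
  have e3 : m + 2 - 1 = m + 1 := by omega
  rw [e1, e2, e3]
  exact h.trans h4

end Pool.Agent.X319.NS.Rank
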